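import Mathlib
import Pool.Agent.H98.S4.Targets

/-! Module FO of the strong colouring board (MP_eb32d7_co): the fourth colour class. -/

set_option autoImplicit false

namespace Pool.Agent.H51.S4

open Finset Pool.Agent.H98.S4

theorem s4_FO (hML : T_ML) (hHK : T_HK) (hBE : T_BE) : T_FO := by
  classical
  intro V β _ dV dβ G f hdeg hblk hr0 hr2 hS
  obtain ⟨S, hS⟩ := hS
  rcases isEmpty_or_nonempty V with hV | hV
  · refine ⟨Unit, fun _ => (), ∅, ∅, ∅, ?_⟩
    exact
      { deg2 := hdeg
        adj := fun u => (hV.false u).elim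
        ind := fun x => (hV.false x).elim
        ex := fun x => (hV.false x).elim
        uniq := fun x => (hV.false x).elim
        two := fun b hb => absurd hb (Finset.notMem_empty _)
        hit := fun X hX => (hV.false hX.choose).elim
        inK := fun x => (hV.false x).elim
        dom := fun x => (hV.false x).elim
        one := fun x => (hV.false x).elim
        bK := fun x => (hV.false x).elim
        star := fun x => (hV.false x).elim }
  obtain ⟨v0⟩ := hV
  have : Finite G.ConnectedComponent := Quot.finite _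
  have : Fintype G.ConnectedComponent := Fintype.ofFinite _
  have : Nonempty G.ConnectedComponent := ⟨G.connectedComponentMk v0⟩
  have : Nonempty β := ⟨f v0⟩
  set cp : V → G.ConnectedComponent := G.connectedComponentMk with hcp
  set CC : Finset G.ConnectedComponent :=
    univ.filter (fun C => ∀ v, cp v = C → ∃ a b : V, a ≠ b ∧ G.Adj v a ∧ G.Adj v b) with hCC
  set N : G.ConnectedComponent → Finset β :=
    fun C => (univ.filter (fun v => cp v = C)).image f with hN
  have hadj : ∀ u v : V, G.Adj u v → cp u = cp v := fun u v h =>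
    SimpleGraph.ConnectedComponent.sound h.reachable
  have hNm : ∀ (C : G.ConnectedComponent) (b : β), b ∈ N C → ∃ v, cp v = C ∧ f v = b := by
    intro C b hb
    obtain ⟨v, hv, hvb⟩ := Finset.mem_image.1 hb
    exact ⟨v, (Finset.mem_filter.1 hv).2, hvb⟩
  have hNi : ∀ v : V, f v ∈ N (cp v) := fun v =>
    Finset.mem_image.2 ⟨v, Finset.mem_filter.2 ⟨Finset.mem_univ _, rfl⟩, rfl⟩
  obtain ⟨K, hKC, ⟨d, hd⟩, ⟨φ, hφ, hφi⟩, ⟨ψ, hψ, hψi⟩⟩ := hHK G.ConnectedComponent β CC N
  set B : Finset β := K.biUnion N with hB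
  have hinB : ∀ v : V, cp v ∈ K → f v ∈ B := fun v hv =>
    Finset.mem_biUnion.2 ⟨cp v, hv, hNi v⟩
  have hreg : Region G f cp K B :=
    { deg2 := hdeg
      r0 := hr0
      r2 := hr2
      blk := by
        intro b hb
        obtain ⟨C, hC, hbC⟩ := Finset.mem_biUnion.1 hb
        obtain ⟨v, hv, hvb⟩ := hNm C b hbC
        have := hblk v
        rw [hvb] at this
        exact this
      adj := hadj
      cyc := fun v hv => (Finset.mem_filter.1 (hKC hv)).2 v rfl
      inB := hinB }
  have hcen : ∃ m : G.ConnectedComponent → V, Cen f cp K B m := by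
    have hm : ∀ C : G.ConnectedComponent, ∃ v : V, cp v = C ∧ ∀ b ∈ B, ψ b = C → f v = b := by
      intro C
      by_cases h : ∃ b ∈ B, ψ b = C
      · obtain ⟨b, hb, hbC⟩ := h
        obtain ⟨v, hv, hvb⟩ := hNm (ψ b) b (hψ b hb).2
        refine ⟨v, hv.trans hbC, fun b' hb' hbC' => ?_⟩
        rw [hvb]
        exact hψi (Finset.mem_coe.2 hb) (Finset.mem_coe.2 hb') (hbC.trans hbC'.symm)
      · obtain ⟨v, hv⟩ := C.exists_rep
        exact ⟨v, hv, fun b hb hbC => (h ⟨b, hb, hbC⟩).elim⟩
    choose m hm1 hm2 using hm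
    exact ⟨m, fun C _ => hm1 C, fun b hb => ⟨ψ b, (hψ b hb).1, hm2 _ b hb rfl⟩⟩
  obtain ⟨m, P, hPd, hst, hP2, hP1⟩ :=
    hML V β G.ConnectedComponent G f cp K B d hreg hd hcen
  obtain ⟨S', hS1, hS2, hS3, hS4, hS5⟩ :=
    hBE V β G.ConnectedComponent G f cp B (CC \ K) S φ hadj hS
      (fun C hC => ⟨(hφ C hC).2, hNm C _ (hφ C hC).1⟩) hφi
  have hmC : ∀ C ∈ K, cp (m C) = C := hst.cen.1
  have hmB : ∀ C ∈ K, f (m C) ∈ B := fun C hC => hinB _ ((hmC C hC).symm ▸ hC)
  have hF : ∀ x : V, x ∈ K.image m ∪ S' → (∃ C ∈ K, m C = x ∧ cp x = C) ∨ x ∈ S' := by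
    intro x hx
    rcases Finset.mem_union.1 hx with h | h
    · obtain ⟨C, hC, rfl⟩ := Finset.mem_image.1 h
      exact Or.inl ⟨C, hC, rfl, hmC C hC⟩
    · exact Or.inr h
  have hFm : ∀ C ∈ K, m C ∈ K.image m ∪ S' := fun C hC =>
    Finset.mem_union_left _ (Finset.mem_image_of_mem m hC)
  have hFs : ∀ x ∈ S', x ∈ K.image m ∪ S' := fun x hx => Finset.mem_union_right _ hx
  have hFK : ∀ x : V, x ∈ K.image m ∪ S' → cp x ∈ K → x = m (cp x) := by
    intro x hx hxK
    rcases hF x hx with ⟨C, hC, h1, h2⟩ | h
    · rw [h2, h1]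
    · exact (hS1 x h (hinB x hxK)).elim
  have hinj : Set.InjOn m (K : Set G.ConnectedComponent) := by
    intro C hC C' hC' h
    rw [← hmC C hC, ← hmC C' hC', h]
  refine ⟨G.ConnectedComponent, cp, K, P, K.image m ∪ S', ?_⟩
  exact
    { deg2 := hdeg
      adj := hadj
      ind := by
        intro x hx y hy h
        rcases hF x hx with ⟨C, hC, h1, h2⟩ | h1
        · have hyK : cp y ∈ K := by rw [← hadj x y h, h2]; exact hC
          have e1 := hFK x hx (by rw [h2]; exact hC)
          have e2 := hFK y hy hyK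
          rw [← hadj x y h, ← e1] at e2
          exact h.ne e2.symm
        · rcases hF y hy with ⟨C, hC, h3, h4⟩ | h3
          · have hxK : cp x ∈ K := by rw [hadj x y h, h4]; exact hC
            exact hS1 x h1 (hinB x hxK)
          · exact hS4 x h1 y h3 h
      ex := by
        intro v
        by_cases hv : f v ∈ B
        · obtain ⟨C, hC, h⟩ := hst.cen.2 _ hv
          exact ⟨m C, hFm C hC, h⟩
        · obtain ⟨x, hx, h⟩ := hS2 v hv
          exact ⟨x, hFs x hx, h⟩
      uniq := by
        intro x hx y hy hxy hxP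
        rcases hF x hx with ⟨C, hC, h1, h2⟩ | h1
        · rcases hF y hy with ⟨C', hC', h3, h4⟩ | h3
          · have hb : f x ∈ B := h1 ▸ hmB C hC
            have hc := hP1 _ hb hxP
            unfold cnt at hc
            obtain ⟨D, hD⟩ := Finset.card_eq_one.1 hc
            have m1 : C ∈ K.filter (fun C => f (m C) = f x) :=
              Finset.mem_filter.2 ⟨hC, by rw [h1]⟩
            have m2 : C' ∈ K.filter (fun C => f (m C) = f x) :=
              Finset.mem_filter.2 ⟨hC', by rw [h3, hxy]⟩
            rw [hD, Finset.mem_singleton] at m1 m2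
            rw [← h1, ← h3, m1, m2]
          · have hb : f x ∈ B := h1 ▸ hmB C hC
            exact (hS1 y h3 (hxy ▸ hb)).elim
        · rcases hF y hy with ⟨C', hC', h3, h4⟩ | h3
          · have hb : f y ∈ B := h3 ▸ hmB C' hC'
            exact (hS1 x h1 (hxy.symm ▸ hb)).elim
          · exact hS3 x h1 y h3 hxy
      two := by
        intro b hb
        have he : (K.image m ∪ S').filter (fun x => f x = b) =
            (K.filter (fun C => f (m C) = b)).image m := by
          ext x
          constructor
          · intro hx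
            obtain ⟨hx1, hx2⟩ := Finset.mem_filter.1 hx
            rcases hF x hx1 with ⟨C, hC, h1, h2⟩ | h1
            · exact Finset.mem_image.2 ⟨C, Finset.mem_filter.2 ⟨hC, by rw [h1]; exact hx2⟩, h1⟩
            · exact (hS1 x h1 (hx2.symm ▸ hst.sub hb)).elim
          · intro hx
            obtain ⟨C, hC, h1⟩ := Finset.mem_image.1 hx
            obtain ⟨hC1, hC2⟩ := Finset.mem_filter.1 hC
            exact Finset.mem_filter.2 ⟨h1 ▸ hFm C hC1, by rw [← h1]; exact hC2⟩
        have hc := hP2 b hb
        unfold cnt at hc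
        rw [he, Finset.card_image_of_injOn, hc]
        exact hinj.mono (fun C hC => (Finset.mem_filter.1 (Finset.mem_coe.1 hC)).1)
      hit := by
        intro X hX hX2
        obtain ⟨x0, hx0⟩ := hX
        have hcl : ∀ x ∈ X, ∀ y, G.Adj x y → y ∈ X := by
          intro x hx y hxy
          obtain ⟨a, ha, b, hb, hab, hxa, hxb⟩ := hX2 x hx
          rcases hdeg x a b y hxa hxb hxy with h | h | h
          · exact (hab h).elim
          · exact h ▸ ha
          · exact h ▸ hb
        have hwalk : ∀ u v : V, G.Walk u v → u ∈ X → v ∈ X := by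
          intro u v p
          induction p with
          | nil => exact fun h => h
          | cons h p ih => exact fun hu => ih (hcl _ hu _ h)
        have hall : ∀ v, cp v = cp x0 → v ∈ X := by
          intro v hv
          obtain ⟨p⟩ := SimpleGraph.ConnectedComponent.exact hv.symm
          exact hwalk _ _ p hx0
        have hCCm : cp x0 ∈ CC := by
          refine Finset.mem_filter.2 ⟨Finset.mem_univ _, fun v hv => ?_⟩
          obtain ⟨a, ha, b, hb, hab, hxa, hxb⟩ := hX2 v (hall v hv)
          exact ⟨a, b, hab, hxa, hxb⟩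
        by_cases hK : cp x0 ∈ K
        · exact ⟨m (cp x0), hall _ (hmC _ hK), hFm _ hK⟩
        · obtain ⟨x, hx, hxc⟩ := hS5 _ (Finset.mem_sdiff.2 ⟨hCCm, hK⟩)
          exact ⟨x, hall x hxc, hFs x hx⟩
      inK := fun v hv => (hst.cl _ hv v rfl).1
      dom := by
        intro v hv hvF
        obtain ⟨h1, h2⟩ := hst.cl _ hv v rfl
        rcases h2 with h2 | h2
        · exact (hvF (h2 ▸ hFm _ h1)).elim
        · exact ⟨_, hFm _ h1, h2⟩
      one := by
        intro x hx y hy hxy hxK
        rw [hFK x hx hxK, hFK y hy (hxy ▸ hxK), hxy]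
      bK := by
        intro x hx w hw hxw
        rcases hF x hx with ⟨C, hC, h1, h2⟩ | h1
        · rw [h2]; exact hC
        · exact (hS1 x h1 (hxw ▸ hinB w hw)).elim
      star := by
        intro z hz hzK a a' haa h1 h2
        have e := hFK z hz hzK
        refine hst.star (cp z) hzK a a' haa ?_ ?_
        · rw [← e]; exact h1
        · rw [← e]; exact h2 }

end Pool.Agent.H51.S4
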